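import Mathlib

set_option autoImplicit false
open MeasureTheory Set Filter Topology

namespace Pool.Agent.N677

theorem int_deriv_le (m : ℝ → ℝ) (a b : ℝ) (hab : a ≤ b) (hbv : eVariationOn m (Icc a b) ≠ ⊤) :
    IntervalIntegrable (deriv m) volume a b ∧
      ∫ s in a..b, |deriv m s| ≤ (eVariationOn m (Icc a b)).toReal := by
  have hbv' : BoundedVariationOn m (Icc a b) := hbv
  have hloc : LocallyBoundedVariationOn m (Icc a b) := hbv'.locallyBoundedVariationOn
  have hint : IntervalIntegrable (deriv m) volume a b := by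
    apply BoundedVariationOn.intervalIntegrable_deriv
    rw [uIcc_of_le hab]
    exact hbv'
  refine ⟨hint, ?_⟩
  have ha : a ∈ Icc a b := ⟨le_rfl, hab⟩
  set v : ℝ → ℝ := variationOnFromTo m (Icc a b) a with hv
  have hvm : MonotoneOn v (Icc a b) := variationOnFromTo.monotoneOn hloc ha
  have hpm : MonotoneOn (v + m) (Icc a b) := variationOnFromTo.add_self_monotoneOn hloc ha
  have hqm : MonotoneOn (v - m) (Icc a b) := variationOnFromTo.sub_self_monotoneOn hloc ha
  have hvu : MonotoneOn v (uIcc a b) := by rw [uIcc_of_le hab]; exact hvm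
  have hvint := hvu.intervalIntegrable_deriv
  have h1 : ∫ s in a..b, |deriv m s| ≤ ∫ s in a..b, deriv v s := by
    apply intervalIntegral.integral_mono_ae_restrict hab hint.abs hvint
    rw [Filter.EventuallyLE, MeasureTheory.ae_restrict_iff' measurableSet_Icc]
    have hnb : ∀ᵐ x : ℝ, x ≠ b := by simp [ae_iff, measure_singleton]
    have hna : ∀ᵐ x : ℝ, x ≠ a := by simp [ae_iff, measure_singleton]
    filter_upwards [hvm.ae_differentiableWithinAt_of_mem, hpm.ae_differentiableWithinAt_of_mem,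
      hna, hnb] with x hx1 hx2 hx3 hx4 hx
    have hxo : x ∈ Ioo a b := ⟨lt_of_le_of_ne hx.1 (Ne.symm hx3), lt_of_le_of_ne hx.2 hx4⟩
    have hnh : Icc a b ∈ 𝓝 x := Icc_mem_nhds hxo.1 hxo.2
    have dv : DifferentiableAt ℝ v x := (hx1 hx).differentiableAt hnh
    have dp : DifferentiableAt ℝ (v + m) x := (hx2 hx).differentiableAt hnh
    have dm : DifferentiableAt ℝ m x := by
      have := dp.sub dv
      have e : v + m - v = m := by
        funext y
        simp
      rwa [e] at this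
    have n1 : 0 ≤ deriv (v + m) x := by
      rw [← derivWithin_of_mem_nhds hnh]
      exact hpm.derivWithin_nonneg
    have n2 : 0 ≤ deriv (v - m) x := by
      rw [← derivWithin_of_mem_nhds hnh]
      exact hqm.derivWithin_nonneg
    rw [deriv_add dv dm] at n1
    rw [deriv_sub dv dm] at n2
    exact abs_le.2 ⟨by linarith, by linarith⟩
  have h2 := hvu.intervalIntegral_deriv_mem_uIcc
  have h3 : 0 ≤ v b - v a := sub_nonneg.2 (hvm ha ⟨hab, le_rfl⟩ hab)
  rw [uIcc_of_le h3] at h2
  have h4 : v b - v a = (eVariationOn m (Icc a b)).toReal := by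
    rw [hv, variationOnFromTo.self, variationOnFromTo.eq_of_le _ _ hab, Set.inter_self, sub_zero]
  linarith [h2.2]

theorem lint_deriv_le (m : ℝ → ℝ) (a b : ℝ) (hab : a ≤ b) (hbv : eVariationOn m (Icc a b) ≠ ⊤) :
    ∫⁻ s in Ioo a b, ‖deriv m s‖ₑ ≤ eVariationOn m (Icc a b) := by
  obtain ⟨h1, h2⟩ := int_deriv_le m a b hab hbv
  rw [intervalIntegral.integral_of_le hab] at h2
  rw [intervalIntegrable_iff_integrableOn_Ioc_of_le hab] at h1
  calc ∫⁻ s in Ioo a b, ‖deriv m s‖ₑ ≤ ∫⁻ s in Ioc a b, ‖deriv m s‖ₑ :=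
        lintegral_mono_set Ioo_subset_Ioc_self
    _ = ENNReal.ofReal (∫ s in Ioc a b, ‖deriv m s‖) := by
        rw [ofReal_integral_norm_eq_lintegral_enorm h1]
    _ ≤ ENNReal.ofReal (eVariationOn m (Icc a b)).toReal := ENNReal.ofReal_le_ofReal h2
    _ ≤ _ := ENNReal.ofReal_toReal_le

/-- A complex curve, differentiable on `(0,1)`, with infinite arclength integral has infinite
total variation on `[0,1)`. -/
theorem eVariationOn_eq_top {g : ℝ → ℂ} (hg : ∀ x ∈ Ioo (0 : ℝ) 1, DifferentiableAt ℝ g x)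
    (h : ∫⁻ r in Ioo (0 : ℝ) 1, ‖deriv g r‖ₑ = ⊤) : eVariationOn g (Ico (0 : ℝ) 1) = ⊤ := by
  by_contra hne
  have hre : eVariationOn (fun x => (g x).re) (Ico (0 : ℝ) 1) ≤ eVariationOn g (Ico (0 : ℝ) 1) := by
    have hL : LipschitzWith 1 Complex.re := LipschitzWith.of_dist_le_mul fun x y => by
      rw [NNReal.coe_one, one_mul, Complex.dist_eq, Real.dist_eq, ← Complex.sub_re]
      exact Complex.abs_re_le_norm _
    have := (LipschitzWith.lipschitzOnWith (s := univ) hL).comp_eVariationOn_le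
      (g := g) (s := Ico (0 : ℝ) 1) (fun x _ => mem_univ _)
    simpa [Function.comp_def] using this
  have him : eVariationOn (fun x => (g x).im) (Ico (0 : ℝ) 1) ≤ eVariationOn g (Ico (0 : ℝ) 1) := by
    have hL : LipschitzWith 1 Complex.im := LipschitzWith.of_dist_le_mul fun x y => by
      rw [NNReal.coe_one, one_mul, Complex.dist_eq, Real.dist_eq, ← Complex.sub_im]
      exact Complex.abs_im_le_norm _
    have := (LipschitzWith.lipschitzOnWith (s := univ) hL).comp_eVariationOn_le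
      (g := g) (s := Ico (0 : ℝ) 1) (fun x _ => mem_univ _)
    simpa [Function.comp_def] using this
  have key : ∀ b : ℝ, 0 ≤ b → b < 1 → ∫⁻ r in Ioo (0 : ℝ) b, ‖deriv g r‖ₑ ≤
      2 * eVariationOn g (Ico (0 : ℝ) 1) := by
    intro b hb0 hb
    have hsub : Icc (0 : ℝ) b ⊆ Ico (0 : ℝ) 1 := fun x hx => ⟨hx.1, lt_of_le_of_lt hx.2 hb⟩
    have r1 : eVariationOn (fun x => (g x).re) (Icc (0 : ℝ) b) ≤ eVariationOn g (Ico (0 : ℝ) 1) :=
      (eVariationOn.mono _ hsub).trans hre
    have r2 : eVariationOn (fun x => (g x).im) (Icc (0 : ℝ) b) ≤ eVariationOn g (Ico (0 : ℝ) 1) :=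
      (eVariationOn.mono _ hsub).trans him
    have l1 := lint_deriv_le _ 0 b hb0 (ne_top_of_le_ne_top hne r1)
    have l2 := lint_deriv_le _ 0 b hb0 (ne_top_of_le_ne_top hne r2)
    calc ∫⁻ r in Ioo (0 : ℝ) b, ‖deriv g r‖ₑ
        ≤ ∫⁻ r in Ioo (0 : ℝ) b, (‖deriv (fun x => (g x).re) r‖ₑ + ‖deriv (fun x => (g x).im) r‖ₑ) := by
          apply setLIntegral_mono_ae'
          · exact measurableSet_Ioo
          · refine Filter.Eventually.of_forall fun x hx => ?_
            have hd : HasDerivAt g (deriv g x) x :=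
              (hg x ⟨hx.1, hx.2.trans hb⟩).hasDerivAt
            have d1 : HasDerivAt (fun x => (g x).re) (deriv g x).re x :=
              (Complex.reCLM.hasFDerivAt (x := g x)).comp_hasDerivAt x hd
            have d2 : HasDerivAt (fun x => (g x).im) (deriv g x).im x :=
              (Complex.imCLM.hasFDerivAt (x := g x)).comp_hasDerivAt x hd
            rw [d1.deriv, d2.deriv]
            have : ‖deriv g x‖ ≤ ‖(deriv g x).re‖ + ‖(deriv g x).im‖ :=
              Complex.norm_le_abs_re_add_abs_im _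
            rw [← ofReal_norm, ← ofReal_norm, ← ofReal_norm,
              ← ENNReal.ofReal_add (norm_nonneg _) (norm_nonneg _)]
            exact ENNReal.ofReal_le_ofReal this
      _ = (∫⁻ r in Ioo (0 : ℝ) b, ‖deriv (fun x => (g x).re) r‖ₑ) +
            ∫⁻ r in Ioo (0 : ℝ) b, ‖deriv (fun x => (g x).im) r‖ₑ := by
          rw [lintegral_add_left]
          exact (measurable_deriv _).enorm
      _ ≤ 2 * eVariationOn g (Ico (0 : ℝ) 1) := by
          rw [two_mul]
          exact add_le_add (l1.trans r1) (l2.trans r2)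
  have hU : Ioo (0 : ℝ) 1 = ⋃ n : ℕ, Ioo (0 : ℝ) (1 - 1 / ((n : ℝ) + 1)) := by
    ext x
    simp only [mem_Ioo, mem_iUnion]
    constructor
    · rintro ⟨h0, h1⟩
      obtain ⟨n, hn⟩ := exists_nat_one_div_lt (sub_pos.2 h1)
      exact ⟨n, h0, by linarith⟩
    · rintro ⟨n, h0, h1⟩
      refine ⟨h0, h1.trans ?_⟩
      have : (0 : ℝ) < 1 / ((n : ℝ) + 1) := by positivity
      linarith
  have hmono : Monotone (fun n : ℕ => Ioo (0 : ℝ) (1 - 1 / ((n : ℝ) + 1))) := by
    intro m n hmn
    apply Ioo_subset_Ioo_right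
    have : (1 : ℝ) / ((n : ℝ) + 1) ≤ 1 / ((m : ℝ) + 1) := by
      apply one_div_le_one_div_of_le (by positivity)
      have : (m : ℝ) ≤ n := by exact_mod_cast hmn
      linarith
    linarith
  rw [hU, setLIntegral_iUnion_of_directed _ hmono.directed_le] at h
  have h2 : (⨆ n : ℕ, ∫⁻ r in Ioo (0 : ℝ) (1 - 1 / ((n : ℝ) + 1)), ‖deriv g r‖ₑ) ≤
      2 * eVariationOn g (Ico (0 : ℝ) 1) := by
    apply iSup_le
    intro n
    have h3 : (1 : ℝ) / ((n : ℝ) + 1) ≤ 1 := by
      rw [div_le_one (by positivity)]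
      have : (0 : ℝ) ≤ n := by positivity
      linarith
    have h4 : (0 : ℝ) < 1 / ((n : ℝ) + 1) := by positivity
    exact key _ (by linarith) (by linarith)
  rw [h, top_le_iff] at h2
  exact (ENNReal.mul_ne_top (by norm_num) hne) h2

end Pool.Agent.N677
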